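import Pool.Agent.H820.F3.Stm

/-! `S_hsum` (project F3 of helper820), by helper196. -/

set_option autoImplicit false

namespace Pool.Agent.H196.F3.HSum

open Pool.Agent.H820.F3
open Matrix Complex Filter Topology
open scoped MatrixGroups Pointwise

/-- sum of the squares of the entries -/
noncomputable def NN (g : SL(2, ℝ)) : ℝ := g 0 0 ^ 2 + g 0 1 ^ 2 + g 1 0 ^ 2 + g 1 1 ^ 2

lemma det_eq (g : SL(2, ℝ)) : g 0 0 * g 1 1 - g 0 1 * g 1 0 = 1 := by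
  have h := g.det_coe
  rw [Matrix.det_fin_two] at h
  exact h

lemma NN_ge (g : SL(2, ℝ)) : 1 ≤ NN g := by
  unfold NN
  nlinarith [det_eq g, sq_nonneg (g 0 0 - g 1 1), sq_nonneg (g 0 1 + g 1 0)]

lemma abs_le_of_sq (x N : ℝ) (hN : 1 ≤ N) (h : x ^ 2 ≤ N) : |x| ≤ N := by
  have h1 : |x| ^ 2 ≤ N := by rw [sq_abs]; exact h
  nlinarith [abs_nonneg x]

lemma e00 (g : SL(2, ℝ)) : |g 0 0| ≤ NN g := abs_le_of_sq _ _ (NN_ge g) (by
  unfold NN; nlinarith [sq_nonneg (g 0 1), sq_nonneg (g 1 0), sq_nonneg (g 1 1)])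
lemma e01 (g : SL(2, ℝ)) : |g 0 1| ≤ NN g := abs_le_of_sq _ _ (NN_ge g) (by
  unfold NN; nlinarith [sq_nonneg (g 0 0), sq_nonneg (g 1 0), sq_nonneg (g 1 1)])
lemma e10 (g : SL(2, ℝ)) : |g 1 0| ≤ NN g := abs_le_of_sq _ _ (NN_ge g) (by
  unfold NN; nlinarith [sq_nonneg (g 0 0), sq_nonneg (g 0 1), sq_nonneg (g 1 1)])
lemma e11 (g : SL(2, ℝ)) : |g 1 1| ≤ NN g := abs_le_of_sq _ _ (NN_ge g) (by
  unfold NN; nlinarith [sq_nonneg (g 0 0), sq_nonneg (g 0 1), sq_nonneg (g 1 0)])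

lemma jf_ne (g : SL(2, ℝ)) (w : ℂ) (hw : 0 < w.im) : jf g w ≠ 0 := by
  intro h
  have h1 := congrArg Complex.im h
  have h2 := congrArg Complex.re h
  unfold jf at h1 h2
  simp at h1 h2
  rcases h1 with h1 | h1
  · rw [h1] at h2
    have h3 := det_eq g
    rw [h1] at h3
    have h4 : g 1 1 = 0 := by simpa using h2
    rw [h4] at h3
    norm_num at h3
  · exact hw.ne' h1

lemma prod_eq (g : SL(2, ℝ)) (w : ℂ) (hw : 0 < w.im) :
    (‖jf g w‖ * ‖mb g w + I‖) ^ 2 =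
      (g 0 0 * w.re + g 0 1 - g 1 0 * w.im) ^ 2 + (g 0 0 * w.im + g 1 0 * w.re + g 1 1) ^ 2 := by
  rw [← norm_mul]
  have h1 : jf g w * (mb g w + I) = ((g 0 0 : ℂ) * w + g 0 1) + I * ((g 1 0 : ℂ) * w + g 1 1) := by
    unfold mb
    rw [mul_add, mul_div_cancel₀ _ (jf_ne g w hw)]
    unfold jf
    ring
  rw [h1, Complex.sq_norm, Complex.normSq_apply]
  simp
  ring

lemma low (g : SL(2, ℝ)) (w : ℂ) (hw : 0 < w.im) :
    NN g ≤ ((1 + 2 * w.re ^ 2) / w.im ^ 2 + 2) * (‖jf g w‖ * ‖mb g w + I‖) ^ 2 := by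
  rw [prod_eq g w hw]
  set x := w.re
  set y := w.im
  have hdet := det_eq g
  unfold NN
  set a := g 0 0
  set b := g 0 1
  set c := g 1 0
  set d := g 1 1
  have e : (a * x + b - c * y) ^ 2 + (a * y + c * x + d) ^ 2 =
      ((a * x + b) ^ 2 + a ^ 2 * y ^ 2 + (c * x + d) ^ 2 + c ^ 2 * y ^ 2) + 2 * y := by
    linear_combination (2 * y) * hdet
  rw [e]
  have key : ∀ a b : ℝ, a ^ 2 + b ^ 2 ≤
      ((1 + 2 * x ^ 2) / y ^ 2 + 2) * ((a * x + b) ^ 2 + a ^ 2 * y ^ 2) := by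
    intro a b
    have h1 : a ^ 2 + b ^ 2 ≤ (1 + 2 * x ^ 2) * a ^ 2 + 2 * (a * x + b) ^ 2 := by
      nlinarith [sq_nonneg (b + 2 * a * x)]
    have h2 : (1 + 2 * x ^ 2) * a ^ 2 = ((1 + 2 * x ^ 2) / y ^ 2) * (a ^ 2 * y ^ 2) := by
      field_simp
    have h3 : 0 ≤ ((1 + 2 * x ^ 2) / y ^ 2) * (a * x + b) ^ 2 := by positivity
    have h4 : 0 ≤ a ^ 2 * y ^ 2 := by positivity
    nlinarith
  have k1 := key a b
  have k2 := key c d
  have h5 : 0 ≤ ((1 + 2 * x ^ 2) / y ^ 2 + 2) * (2 * y) := by positivity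
  nlinarith

/-! ### Discreteness -/

/-- the point `g I` is near `I` -/
lemma dist_smul_I (g : SL(2, ℝ)) (h : (g 0 1 + g 1 0) ^ 2 + (g 0 0 - g 1 1) ^ 2 ≤ 1) :
    dist (g • UpperHalfPlane.I) UpperHalfPlane.I ≤ 1 := by
  refine le_trans (UpperHalfPlane.dist_le_dist_coe_div_sqrt _ _) ?_
  have hdet := det_eq g
  have hcoe : ((g • UpperHalfPlane.I : UpperHalfPlane) : ℂ) =
      ((g 0 0 : ℂ) * I + (g 0 1 : ℂ)) / ((g 1 0 : ℂ) * I + (g 1 1 : ℂ)) := by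
    rw [UpperHalfPlane.coe_specialLinearGroup_apply]
    rfl
  have hDpos : 0 < g 1 0 ^ 2 + g 1 1 ^ 2 := by
    by_contra hcon
    have h0 := sq_nonneg (g 1 0)
    have h1 := sq_nonneg (g 1 1)
    have h2 : g 1 0 ^ 2 = 0 := by linarith
    have h3 : g 1 1 ^ 2 = 0 := by linarith
    rw [sq_eq_zero_iff] at h2 h3
    rw [h2, h3] at hdet
    norm_num at hdet
  have hq2 : ‖(g 1 0 : ℂ) * I + (g 1 1 : ℂ)‖ ^ 2 = g 1 0 ^ 2 + g 1 1 ^ 2 := by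
    rw [Complex.sq_norm, Complex.normSq_apply]
    simp
    ring
  have hqpos : 0 < ‖(g 1 0 : ℂ) * I + (g 1 1 : ℂ)‖ := by
    rcases lt_or_eq_of_le (norm_nonneg ((g 1 0 : ℂ) * I + (g 1 1 : ℂ))) with h4 | h4
    · exact h4
    · rw [← h4] at hq2
      exfalso
      have : (0 : ℝ) ^ 2 = 0 := by norm_num
      linarith
  have hqne : (g 1 0 : ℂ) * I + (g 1 1 : ℂ) ≠ 0 := norm_pos_iff.1 hqpos
  have him : (g • UpperHalfPlane.I).im = 1 / ‖(g 1 0 : ℂ) * I + (g 1 1 : ℂ)‖ ^ 2 := by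
    rw [← UpperHalfPlane.coe_im, hcoe, Complex.div_im, ← Complex.sq_norm, hq2]
    simp
    field_simp
    linarith
  have hI : ((UpperHalfPlane.I : UpperHalfPlane) : ℂ) = I := rfl
  have hIim : (UpperHalfPlane.I : UpperHalfPlane).im = 1 := rfl
  rw [him, hIim, mul_one, Real.sqrt_div zero_le_one, Real.sqrt_one, Real.sqrt_sq hqpos.le,
    Complex.dist_eq, hcoe, hI]
  have hsub : ((g 0 0 : ℂ) * I + (g 0 1 : ℂ)) / ((g 1 0 : ℂ) * I + (g 1 1 : ℂ)) - I =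
      (((g 0 1 + g 1 0 : ℝ) : ℂ) + ((g 0 0 - g 1 1 : ℝ) : ℂ) * I) /
        ((g 1 0 : ℂ) * I + (g 1 1 : ℂ)) := by
    rw [eq_div_iff hqne, sub_mul, div_mul_cancel₀ _ hqne]
    push_cast
    have hII : I * I = -1 := Complex.I_mul_I
    linear_combination (-(g 1 0 : ℂ)) * hII
  rw [hsub, norm_div, div_div_eq_mul_div, div_one, div_mul_cancel₀ _ hqpos.ne']
  have h5 : ‖((g 0 1 + g 1 0 : ℝ) : ℂ) + ((g 0 0 - g 1 1 : ℝ) : ℂ) * I‖ ^ 2 ≤ 1 := by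
    rw [Complex.sq_norm, Complex.normSq_apply]
    simp
    nlinarith
  exact (sq_le_one_iff₀ (norm_nonneg _)).1 h5

/-- discreteness -/
lemma discrete (Γ : Subgroup SL(2, ℝ)) (hΓ : IsSurfaceGroup Γ) : ∃ L : ℕ, 1 ≤ L ∧ ∀ g ∈ Γ,
    |g 0 0 - 1| < 1 / (L : ℝ) → |g 0 1| < 1 / (L : ℝ) → |g 1 0| < 1 / (L : ℝ) →
    |g 1 1 - 1| < 1 / (L : ℝ) → g = 1 := by
  have hfin := hΓ.proper (Metric.closedBall UpperHalfPlane.I 1) (isCompact_closedBall _ _)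
  have hev : ∀ᶠ L : ℕ in atTop, ∀ g ∈ {g | g ∈ Γ ∧
      ((g • Metric.closedBall UpperHalfPlane.I 1) ∩ Metric.closedBall UpperHalfPlane.I 1).Nonempty},
      (|g 0 0 - 1| < 1 / (L : ℝ) → |g 0 1| < 1 / (L : ℝ) → |g 1 0| < 1 / (L : ℝ) →
        |g 1 1 - 1| < 1 / (L : ℝ) → g = 1) := by
    rw [hfin.eventually_all]
    intro g _
    by_cases hg : g = 1
    · exact Eventually.of_forall fun _ _ _ _ _ => hg
    · have hpos : 0 < |g 0 0 - 1| + |g 0 1| + |g 1 0| + |g 1 1 - 1| := by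
        by_contra hcon
        apply hg
        have h0 := abs_nonneg (g 0 0 - 1)
        have h1 := abs_nonneg (g 0 1)
        have h2 := abs_nonneg (g 1 0)
        have h3 := abs_nonneg (g 1 1 - 1)
        have q0 : |g 0 0 - 1| = 0 := by linarith
        have q1 : |g 0 1| = 0 := by linarith
        have q2 : |g 1 0| = 0 := by linarith
        have q3 : |g 1 1 - 1| = 0 := by linarith
        rw [abs_eq_zero] at q0 q1 q2 q3
        ext i j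
        fin_cases i <;> fin_cases j
        · simpa using sub_eq_zero.1 q0
        · simpa using q1
        · simpa using q2
        · simpa using sub_eq_zero.1 q3
      have ht := tendsto_one_div_atTop_nhds_zero_nat (𝕜 := ℝ)
      have ht' := ht.eventually_lt_const (u := (|g 0 0 - 1| + |g 0 1| + |g 1 0| + |g 1 1 - 1|) / 4)
        (by positivity)
      filter_upwards [ht'] with L hL h0 h1 h2 h3
      exfalso
      linarith
  obtain ⟨L, hL, h4⟩ := (hev.and (eventually_ge_atTop 4)).exists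
  refine ⟨L, by omega, ?_⟩
  intro g hg h0 h1 h2 h3
  refine hL g ⟨hg, ?_⟩ h0 h1 h2 h3
  have hL4 : (1 : ℝ) / L ≤ 1 / 4 := by
    apply one_div_le_one_div_of_le (by norm_num)
    exact_mod_cast h4
  refine ⟨g • UpperHalfPlane.I, ?_, ?_⟩
  · exact Set.smul_mem_smul_set (Metric.mem_closedBall_self (by norm_num))
  · rw [Metric.mem_closedBall]
    apply dist_smul_I
    rw [abs_lt] at h0 h1 h2 h3
    have q1 : (g 0 1 + g 1 0) ^ 2 ≤ (1 / 2) ^ 2 := by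
      apply sq_le_sq'
      · linarith
      · linarith
    have q2 : (g 0 0 - g 1 1) ^ 2 ≤ (1 / 2) ^ 2 := by
      apply sq_le_sq'
      · linarith
      · linarith
    linarith

/-- separation -/
lemma sep (Γ : Subgroup SL(2, ℝ)) (L n : ℕ) (hL : 1 ≤ L) (hn : 1 ≤ n)
    (hd : ∀ g ∈ Γ, |g 0 0 - 1| < 1 / (L : ℝ) → |g 0 1| < 1 / (L : ℝ) → |g 1 0| < 1 / (L : ℝ) →
    |g 1 1 - 1| < 1 / (L : ℝ) → g = 1) (g h : SL(2, ℝ)) (hg : g ∈ Γ) (hh : h ∈ Γ)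
    (hgn : NN g ≤ n) (h00 : |h 0 0 - g 0 0| < 1 / (2 * n * L : ℝ))
    (h01 : |h 0 1 - g 0 1| < 1 / (2 * n * L : ℝ)) (h10 : |h 1 0 - g 1 0| < 1 / (2 * n * L : ℝ))
    (h11 : |h 1 1 - g 1 1| < 1 / (2 * n * L : ℝ)) : g = h := by
  have hnr : (1 : ℝ) ≤ n := by exact_mod_cast hn
  have hLr : (1 : ℝ) ≤ L := by exact_mod_cast hL
  have b00 := le_trans (e00 g) hgn
  have b01 := le_trans (e01 g) hgn
  have b10 := le_trans (e10 g) hgn
  have b11 := le_trans (e11 g) hgn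
  have hε : (n : ℝ) * (1 / (2 * n * L : ℝ)) = 1 / (2 * (L : ℝ)) := by field_simp
  have hε2 : 1 / (2 * (L : ℝ)) + 1 / (2 * (L : ℝ)) = 1 / (L : ℝ) := by field_simp; ring
  have hεpos : 0 < 1 / (2 * n * L : ℝ) := by positivity
  have hmul : ∀ x y : ℝ, |x| ≤ n → |y| < 1 / (2 * n * L : ℝ) → |x * y| < 1 / (2 * (L : ℝ)) := by
    intro x y hx hy
    rw [abs_mul, ← hε]
    calc |x| * |y| ≤ n * |y| := mul_le_mul_of_nonneg_right hx (abs_nonneg _)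
      _ < n * (1 / (2 * n * L : ℝ)) := mul_lt_mul_of_pos_left hy (by linarith)
  have hcomb : ∀ x y x' y' : ℝ, |x| ≤ n → |y| < 1 / (2 * n * L : ℝ) → |x'| ≤ n →
      |y'| < 1 / (2 * n * L : ℝ) → |x * y - x' * y'| < 1 / (L : ℝ) := by
    intro x y x' y' hx hy hx' hy'
    have q1 := hmul x y hx hy
    have q2 := hmul x' y' hx' hy'
    rw [← hε2]
    calc |x * y - x' * y'| ≤ |x * y| + |x' * y'| := abs_sub _ _
      _ < _ := add_lt_add q1 q2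
  have hdet := det_eq g
  have k00 : (g⁻¹ * h) 0 0 = g 1 1 * h 0 0 - g 0 1 * h 1 0 := by
    rw [Matrix.SpecialLinearGroup.SL2_inv_expl]
    simp [Matrix.mul_apply, Fin.sum_univ_two]
    ring
  have k01 : (g⁻¹ * h) 0 1 = g 1 1 * h 0 1 - g 0 1 * h 1 1 := by
    rw [Matrix.SpecialLinearGroup.SL2_inv_expl]
    simp [Matrix.mul_apply, Fin.sum_univ_two]
    ring
  have k10 : (g⁻¹ * h) 1 0 = g 0 0 * h 1 0 - g 1 0 * h 0 0 := by
    rw [Matrix.SpecialLinearGroup.SL2_inv_expl]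
    simp [Matrix.mul_apply, Fin.sum_univ_two]
    ring
  have k11 : (g⁻¹ * h) 1 1 = g 0 0 * h 1 1 - g 1 0 * h 0 1 := by
    rw [Matrix.SpecialLinearGroup.SL2_inv_expl]
    simp [Matrix.mul_apply, Fin.sum_univ_two]
    ring
  have hone : g⁻¹ * h = 1 := by
    apply hd _ (Γ.mul_mem (Γ.inv_mem hg) hh)
    · rw [k00]
      have e : g 1 1 * h 0 0 - g 0 1 * h 1 0 - 1 =
        g 1 1 * (h 0 0 - g 0 0) - g 0 1 * (h 1 0 - g 1 0) := by linear_combination hdet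
      rw [e]
      exact hcomb _ _ _ _ b11 h00 b01 h10
    · rw [k01]
      have e : g 1 1 * h 0 1 - g 0 1 * h 1 1 =
        g 1 1 * (h 0 1 - g 0 1) - g 0 1 * (h 1 1 - g 1 1) := by ring
      rw [e]
      exact hcomb _ _ _ _ b11 h01 b01 h11
    · rw [k10]
      have e : g 0 0 * h 1 0 - g 1 0 * h 0 0 =
        g 0 0 * (h 1 0 - g 1 0) - g 1 0 * (h 0 0 - g 0 0) := by ring
      rw [e]
      exact hcomb _ _ _ _ b00 h10 b10 h00
    · rw [k11]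
      have e : g 0 0 * h 1 1 - g 1 0 * h 0 1 - 1 =
        g 0 0 * (h 1 1 - g 1 1) - g 1 0 * (h 0 1 - g 0 1) := by
        linear_combination hdet
      rw [e]
      exact hcomb _ _ _ _ b00 h11 b10 h01
  exact inv_mul_eq_one.1 hone

/-! ### Summability -/

lemma floor_close (x y : ℝ) (h : ⌊x⌋ = ⌊y⌋) : |y - x| < 1 := by
  rw [abs_sub_comm]; exact Int.abs_sub_lt_one_of_floor_eq_floor h

lemma close_of (M x y : ℝ) (hM : 0 < M) (h : ⌊M * x⌋ = ⌊M * y⌋) : |y - x| < 1 / M := by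
  have h1 := floor_close _ _ h
  rw [← mul_sub, abs_mul, abs_of_pos hM] at h1
  rw [lt_div_iff₀ hM]
  linarith

/-- the code -/
noncomputable def code (L : ℕ) (g : SL(2, ℝ)) : ℕ × ℤ × ℤ × ℤ × ℤ :=
  (⌈NN g⌉₊, ⌊(2 * ⌈NN g⌉₊ * L : ℝ) * g 0 0⌋, ⌊(2 * ⌈NN g⌉₊ * L : ℝ) * g 0 1⌋,
    ⌊(2 * ⌈NN g⌉₊ * L : ℝ) * g 1 0⌋, ⌊(2 * ⌈NN g⌉₊ * L : ℝ) * g 1 1⌋)

lemma ceil_ge (g : SL(2, ℝ)) : 1 ≤ ⌈NN g⌉₊ := by
  rw [Nat.one_le_ceil_iff]
  linarith [NN_ge g]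

lemma code_inj (Γ : Subgroup SL(2, ℝ)) (L : ℕ) (hL : 1 ≤ L)
    (hd : ∀ g ∈ Γ, |g 0 0 - 1| < 1 / (L : ℝ) → |g 0 1| < 1 / (L : ℝ) → |g 1 0| < 1 / (L : ℝ) →
    |g 1 1 - 1| < 1 / (L : ℝ) → g = 1) :
    Function.Injective (fun g : Γ => code L (g : SL(2, ℝ))) := by
  rintro ⟨g, hg⟩ ⟨h, hh⟩ hgh
  simp only [code, Prod.mk.injEq] at hgh
  obtain ⟨h1, h2, h3, h4, h5⟩ := hgh
  rw [← h1] at h2 h3 h4 h5
  have hn := ceil_ge g
  have hnr : (1 : ℝ) ≤ (⌈NN g⌉₊ : ℝ) := by exact_mod_cast hn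
  have hLr : (1 : ℝ) ≤ L := by exact_mod_cast hL
  have hM : 0 < (2 * ⌈NN g⌉₊ * L : ℝ) := by positivity
  apply Subtype.ext
  exact sep Γ L ⌈NN g⌉₊ hL hn hd g h hg hh (Nat.le_ceil _) (close_of _ _ _ hM h2)
    (close_of _ _ _ hM h3) (close_of _ _ _ hM h4) (close_of _ _ _ hM h5)

/-- the weight on the integers -/
noncomputable def v (p : ℤ) : ℝ := 1 / (1 + |(p : ℝ)|) ^ 2

/-- the weight on the natural numbers -/
noncomputable def u (n : ℕ) : ℝ := 1 / ((n : ℝ) + 1) ^ 2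

lemma u_sum : Summable u := by
  have h := (summable_nat_add_iff 1).2 (Real.summable_one_div_nat_pow.2 (by norm_num : 1 < 2))
  refine h.congr fun n => ?_
  unfold u
  push_cast
  rfl

lemma v_nat (n : ℕ) : v (n : ℤ) = u n := by
  unfold v u
  rw [Int.cast_natCast, Nat.abs_cast, add_comm]

lemma v_neg (n : ℕ) : v (-(n : ℤ)) = u n := by
  unfold v u
  rw [Int.cast_neg, abs_neg, Int.cast_natCast, Nat.abs_cast, add_comm]

lemma v_sum : Summable v := by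
  apply Summable.of_nat_of_neg
  · exact u_sum.congr fun n => (v_nat n).symm
  · exact u_sum.congr fun n => (v_neg n).symm

lemma u_nonneg (n : ℕ) : 0 ≤ u n := by unfold u; positivity
lemma v_nonneg (n : ℤ) : 0 ≤ v n := by unfold v; positivity

/-- the weight -/
noncomputable def W (c : ℕ × ℤ × ℤ × ℤ × ℤ) : ℝ :=
  u c.1 * (v c.2.1 * (v c.2.2.1 * (v c.2.2.2.1 * v c.2.2.2.2)))

lemma W_sum : Summable W := by
  have h1 : Summable fun x : ℤ × ℤ => v x.1 * v x.2 :=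
    v_sum.mul_of_nonneg v_sum v_nonneg v_nonneg
  have h2 : Summable fun x : ℤ × ℤ × ℤ => v x.1 * (v x.2.1 * v x.2.2) :=
    v_sum.mul_of_nonneg h1 v_nonneg (fun x => mul_nonneg (v_nonneg _) (v_nonneg _))
  have h3 : Summable fun x : ℤ × ℤ × ℤ × ℤ => v x.1 * (v x.2.1 * (v x.2.2.1 * v x.2.2.2)) :=
    v_sum.mul_of_nonneg h2 v_nonneg
      (fun x => mul_nonneg (v_nonneg _) (mul_nonneg (v_nonneg _) (v_nonneg _)))
  exact u_sum.mul_of_nonneg h3 u_nonneg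
    (fun x => mul_nonneg (v_nonneg _) (mul_nonneg (v_nonneg _) (mul_nonneg (v_nonneg _)
      (v_nonneg _))))

lemma v_ge (n L x : ℝ) (hn : 1 ≤ n) (hL : 1 ≤ L) (hx : |x| ≤ n) :
    1 / (4 * n ^ 2 * L) ^ 2 ≤ v ⌊(2 * n * L) * x⌋ := by
  unfold v
  have h1 : |((⌊(2 * n * L) * x⌋ : ℤ) : ℝ)| ≤ 2 * n * L * n + 1 := by
    have h2 := Int.floor_le ((2 * n * L) * x)
    have h3 := Int.lt_floor_add_one ((2 * n * L) * x)
    have h4 : |(2 * n * L) * x| ≤ 2 * n * L * n := by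
      rw [abs_mul, abs_of_nonneg (by positivity)]
      exact mul_le_mul_of_nonneg_left hx (by positivity)
    rw [abs_le] at h4 ⊢
    constructor <;> linarith
  have h5 : 1 + |((⌊(2 * n * L) * x⌋ : ℤ) : ℝ)| ≤ 4 * n ^ 2 * L := by
    have h6 : 1 ≤ n ^ 2 * L := by
      have : 1 ≤ n ^ 2 := one_le_pow₀ hn
      nlinarith
    nlinarith
  apply one_div_le_one_div_of_le
  · positivity
  · exact pow_le_pow_left₀ (by positivity) h5 2

lemma NN_inv_le (L : ℕ) (hL : 1 ≤ L) (g : SL(2, ℝ)) :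
    (NN g ^ 18)⁻¹ ≤ 2 ^ 36 * (L : ℝ) ^ 8 * W (code L g) := by
  have hn := ceil_ge g
  have hnr : (1 : ℝ) ≤ (⌈NN g⌉₊ : ℝ) := by exact_mod_cast hn
  have hLr : (1 : ℝ) ≤ L := by exact_mod_cast hL
  have hN1 := NN_ge g
  have hle : NN g ≤ (⌈NN g⌉₊ : ℝ) := Nat.le_ceil _
  have hlt : (⌈NN g⌉₊ : ℝ) < NN g + 1 := Nat.ceil_lt_add_one (by linarith)
  have hn2 : (⌈NN g⌉₊ : ℝ) ≤ 2 * NN g := by linarith
  have g00 := v_ge (⌈NN g⌉₊ : ℝ) L (g 0 0) hnr hLr (le_trans (e00 g) hle)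
  have g01 := v_ge (⌈NN g⌉₊ : ℝ) L (g 0 1) hnr hLr (le_trans (e01 g) hle)
  have g10 := v_ge (⌈NN g⌉₊ : ℝ) L (g 1 0) hnr hLr (le_trans (e10 g) hle)
  have g11 := v_ge (⌈NN g⌉₊ : ℝ) L (g 1 1) hnr hLr (le_trans (e11 g) hle)
  have gu : 1 / (4 * (⌈NN g⌉₊ : ℝ) ^ 2) ≤ u ⌈NN g⌉₊ := by
    unfold u
    apply one_div_le_one_div_of_le (by positivity)
    nlinarith
  unfold W code
  simp only
  set n : ℝ := (⌈NN g⌉₊ : ℝ) with hndef
  have hT : 0 < 1 / (4 * n ^ 2 * L) ^ 2 := by positivity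
  have hmul : 1 / (4 * n ^ 2) * (1 / (4 * n ^ 2 * L) ^ 2 * (1 / (4 * n ^ 2 * L) ^ 2 *
      (1 / (4 * n ^ 2 * L) ^ 2 * (1 / (4 * n ^ 2 * L) ^ 2)))) ≤
      u ⌈NN g⌉₊ * (v ⌊2 * n * L * g 0 0⌋ * (v ⌊2 * n * L * g 0 1⌋ *
        (v ⌊2 * n * L * g 1 0⌋ * v ⌊2 * n * L * g 1 1⌋))) := by
    apply mul_le_mul gu _ (by positivity) (u_nonneg _)
    apply mul_le_mul g00 _ (by positivity) (v_nonneg _)
    apply mul_le_mul g01 _ (by positivity) (v_nonneg _)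
    exact mul_le_mul g10 g11 (by positivity) (v_nonneg _)
  have hval : 1 / (4 * n ^ 2) * (1 / (4 * n ^ 2 * L) ^ 2 * (1 / (4 * n ^ 2 * L) ^ 2 *
      (1 / (4 * n ^ 2 * L) ^ 2 * (1 / (4 * n ^ 2 * L) ^ 2)))) =
      1 / (2 ^ 18 * (L : ℝ) ^ 8 * n ^ 18) := by
    field_simp
    norm_num
  rw [hval] at hmul
  have hn18 : n ^ 18 ≤ 2 ^ 18 * NN g ^ 18 := by
    rw [← mul_pow]
    exact pow_le_pow_left₀ (by positivity) hn2 18
  have hfin : (NN g ^ 18)⁻¹ ≤ 2 ^ 36 * (L : ℝ) ^ 8 * (1 / (2 ^ 18 * (L : ℝ) ^ 8 * n ^ 18)) := by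
    have e : 2 ^ 36 * (L : ℝ) ^ 8 * (1 / (2 ^ 18 * (L : ℝ) ^ 8 * n ^ 18)) = 2 ^ 18 / n ^ 18 := by
      field_simp
    rw [e, inv_eq_one_div, div_le_div_iff₀ (by positivity) (by positivity)]
    linarith
  exact le_trans hfin (mul_le_mul_of_nonneg_left hmul (by positivity))

lemma NN_sum (Γ : Subgroup SL(2, ℝ)) (hΓ : IsSurfaceGroup Γ) (k : ℕ) (hk : 18 ≤ k) :
    Summable fun g : Γ => (NN (g : SL(2, ℝ)) ^ k)⁻¹ := by
  obtain ⟨L, hL, hd⟩ := discrete Γ hΓ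
  have h1 : Summable fun g : Γ => 2 ^ 36 * (L : ℝ) ^ 8 * W (code L (g : SL(2, ℝ))) :=
    (W_sum.comp_injective (code_inj Γ L hL hd)).mul_left _
  refine Summable.of_nonneg_of_le (fun g => ?_) (fun g => ?_) h1
  · have := NN_ge (g : SL(2, ℝ))
    positivity
  · refine le_trans ?_ (NN_inv_le L hL (g : SL(2, ℝ)))
    have h2 := NN_ge (g : SL(2, ℝ))
    apply inv_anti₀ (by positivity)
    exact pow_le_pow_right₀ h2 hk

end Pool.Agent.H196.F3.HSum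

namespace Pool.Agent.H196.F3

open Pool.Agent.H820.F3 HSum
open Matrix Complex Filter Topology
open scoped MatrixGroups Pointwise

theorem t_hsum : S_hsum := by
  intro Γ hΓ
  refine ⟨18, fun k hk z hz => ?_⟩
  set C0 : ℂ → ℝ := fun w => (1 + 2 * w.re ^ 2) / w.im ^ 2 + 2 with hC0
  have hcont : ContinuousAt C0 z := by
    have h1 : ContinuousAt (fun w : ℂ => w.im ^ 2) z := (Complex.continuous_im.pow 2).continuousAt
    have h2 : ContinuousAt (fun w : ℂ => 1 + 2 * w.re ^ 2) z :=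
      (continuous_const.add (continuous_const.mul (Complex.continuous_re.pow 2))).continuousAt
    exact (h2.div h1 (by positivity)).add continuousAt_const
  have hN1 : ∀ᶠ w in 𝓝 z, C0 w < C0 z + 1 := hcont.eventually_lt_const (by linarith)
  have hN2 : ∀ᶠ w in 𝓝 z, 0 < w.im := Complex.continuous_im.continuousAt.eventually_const_lt hz
  have hCz : 0 < C0 z + 1 := by rw [hC0]; positivity
  refine ⟨{w | C0 w < C0 z + 1 ∧ 0 < w.im}, hN1.and hN2,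
    fun g => (C0 z + 1) ^ k * (NN (g : SL(2, ℝ)) ^ k)⁻¹, (NN_sum Γ hΓ k hk).mul_left _, ?_⟩
  intro g w hw
  obtain ⟨hw1, hw2⟩ := hw
  refine ⟨hw2, ?_⟩
  have h3 := low (g : SL(2, ℝ)) w hw2
  have hNN := NN_ge (g : SL(2, ℝ))
  set T : ℝ := (‖jf (g : SL(2, ℝ)) w‖ * ‖mb (g : SL(2, ℝ)) w + I‖) ^ 2 with hT
  have h4 : NN (g : SL(2, ℝ)) ≤ (C0 z + 1) * T :=
    le_trans h3 (mul_le_mul_of_nonneg_right hw1.le (by positivity))
  have hTpos : 0 < T := by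
    by_contra hcon
    have : (C0 z + 1) * T ≤ 0 := mul_nonpos_of_nonneg_of_nonpos hCz.le (not_lt.1 hcon)
    linarith
  have h5 : (‖jf (g : SL(2, ℝ)) w‖ ^ (2 * k) * ‖mb (g : SL(2, ℝ)) w + I‖ ^ (2 * k))⁻¹ =
      (T ^ k)⁻¹ := by
    rw [hT, ← pow_mul, mul_pow]
  rw [h5]
  have h6 : NN (g : SL(2, ℝ)) ^ k ≤ (C0 z + 1) ^ k * T ^ k := by
    rw [← mul_pow]
    exact pow_le_pow_left₀ (by linarith) h4 k
  show (T ^ k)⁻¹ ≤ (C0 z + 1) ^ k * (NN (g : SL(2, ℝ)) ^ k)⁻¹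
  rw [← div_eq_mul_inv, inv_eq_one_div, div_le_div_iff₀ (by positivity) (by positivity)]
  linarith

end Pool.Agent.H196.F3
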